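import Pool.Agent.H826Z.Iid.Spec

/-! The embedding of `W_1^2` of the unit square into the bounded functions. -/

set_option autoImplicit false

namespace Pool.Agent.H673Z.IidSq2

open Pool.Agent.Helper579.Iid Pool.Agent.H826Z.Iid MeasureTheory Set Filter
open scoped ENNReal Topology

lemma USq_box : USq = Box (fun _ => 0) 1 := by
  ext x
  simp [USq, Box, Fin.forall_fin_two]

lemma mderiv_11 (φ : (Fin 2 → ℝ) → ℝ) : mderiv ![1, 1] φ = pderiv 0 (pderiv 1 φ) := by
  unfold mderiv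
  simp [List.finRange_succ]

lemma norm_le_one {D : Set (Fin 2 → ℝ)} {g : (Fin 2 → ℕ) → (Fin 2 → ℝ) → ℝ}
    (hn : sobNorm D 2 1 g ≤ 1) {α : Fin 2 → ℕ} (hα : α ∈ multi 2 2) :
    eLpNorm (g α) 1 (volume.restrict D) ≤ 1 := by
  unfold sobNorm at hn
  rw [if_neg (by norm_num)] at hn
  simp only [ENNReal.toReal_one, ENNReal.rpow_one, div_one] at hn
  exact (Finset.single_le_sum (f := fun α => eLpNorm (g α) 1 (volume.restrict D))
    (fun _ _ => zero_le) hα).trans hn

lemma l1_bound {D : Set (Fin 2 → ℝ)} {g φ : (Fin 2 → ℝ) → ℝ} {M : ℝ} (hM : 0 ≤ M)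
    (hφ : ∀ x, |φ x| ≤ M) (hg : eLpNorm g 1 (volume.restrict D) ≤ 1) :
    |∫ x in D, g x * φ x| ≤ M := by
  have h3 : ‖∫ x in D, g x * φ x‖ₑ ≤ ENNReal.ofReal M := by
    refine (enorm_integral_le_lintegral_enorm _).trans ?_
    have h4 : ∫⁻ x in D, ‖g x * φ x‖ₑ ≤ ∫⁻ x in D, ENNReal.ofReal M * ‖g x‖ₑ := by
      apply lintegral_mono
      intro x
      simp only [enorm_mul]
      rw [mul_comm]
      gcongr
      rw [Real.enorm_eq_ofReal_abs]
      exact ENNReal.ofReal_le_ofReal (hφ x)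
    refine h4.trans ?_
    rw [lintegral_const_mul' _ _ ENNReal.ofReal_ne_top]
    rw [eLpNorm_one_eq_lintegral_enorm] at hg
    calc _ ≤ ENNReal.ofReal M * 1 := by gcongr
      _ = _ := mul_one _
  rw [Real.enorm_eq_ofReal_abs] at h3
  exact (ENNReal.ofReal_le_ofReal_iff hM).mp h3

lemma avg_bound {f : (Fin 2 → ℝ) → ℝ} (hf : f ∈ sobBall USq 2 1) {c : Fin 2 → ℝ} {h : ℝ}
    (hh : 0 < h) (h0 : ∀ i, 0 ≤ c i) (h1 : ∀ i, c i + h ≤ 1) :
    |avg USq f c h| ≤ 4 * KB ^ 2 := by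
  obtain ⟨hc, g, hg0, hw, hn⟩ := hf
  have hK := one_le_KB
  have hD := isOpen_USq
  have hle : h ≤ 1 := by linarith [h0 0, h1 0]
  have hA : ∀ i, ∀ x, (x < 0 + h / 4 ∨ 0 + 1 - h / 4 < x) → As 0 1 (c i) h x = 0 := fun i x hx =>
    As_zero one_pos hh hle (h0 i) (by linarith [h1 i]) hx
  have hwz : ∀ x, (x < 0 + h / 4 ∨ 0 + 1 - h / 4 < x) → bs 0 1 x = 0 := by
    intro x hx
    apply bs_zero one_pos
    rcases hx with hx | hx
    · left; linarith
    · right; linarith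
  have hbz : ∀ i, ∀ x, (x < 0 + h / 4 ∨ 0 + 1 - h / 4 < x) → bs 0 1 x - bs (c i) h x = 0 := by
    intro i x hx
    rw [hwz x hx, bs_zero hh, sub_zero]
    rcases hx with hx | hx
    · left; linarith [h0 i]
    · right; linarith [h1 i]
  have supp : ∀ u v : ℝ → ℝ, (∀ x, (x < 0 + h / 4 ∨ 0 + 1 - h / 4 < x) → u x = 0) →
      (∀ x, (x < 0 + h / 4 ∨ 0 + 1 - h / 4 < x) → v x = 0) →
      HasCompactSupport (prodFn u v) ∧ tsupport (prodFn u v) ⊆ USq := by
    intro u v hu hv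
    rw [USq_box]
    exact prodFn_support (c := fun _ => 0) (h := 1) (a := h / 4) (by positivity) hu hv
  have hwK : ∀ x, |bs 0 1 x| ≤ KB := fun x => by simpa using abs_bs_le (c := 0) one_pos x
  have hd : ∀ i, ContDiff ℝ (⊤ : ℕ∞) (fun x => bs 0 1 x - bs (c i) h x) := fun i =>
    (bs_contDiff _ _).sub (bs_contDiff _ _)
  have hfl : LocallyIntegrableOn f USq := hc.locallyIntegrableOn hD.measurableSet
  have int : ∀ u v : ℝ → ℝ, ContDiff ℝ (⊤ : ℕ∞) u → ContDiff ℝ (⊤ : ℕ∞) v →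
      (∀ x, (x < 0 + h / 4 ∨ 0 + 1 - h / 4 < x) → u x = 0) →
      (∀ x, (x < 0 + h / 4 ∨ 0 + 1 - h / 4 < x) → v x = 0) →
      IntegrableOn (fun x => f x * prodFn u v x) USq := fun u v cu cv hu hv =>
    integrableOn_mul hD hfl (prodFn_contDiff cu cv).continuous (supp u v hu hv).1
      (supp u v hu hv).2
  have m00 : (0 : Fin 2 → ℕ) ∈ multi 2 2 := by decide
  have m10 : (![1, 0] : Fin 2 → ℕ) ∈ multi 2 2 := by decide
  have m01 : (![0, 1] : Fin 2 → ℕ) ∈ multi 2 2 := by decide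
  have m11 : (![1, 1] : Fin 2 → ℕ) ∈ multi 2 2 := by decide
  have e10 := (hw _ m10).2.2 (prodFn (As 0 1 (c 0) h) (bs 0 1))
    (prodFn_contDiff (As_contDiff _ _ _ _) (bs_contDiff _ _)) (supp _ _ (hA 0) hwz).1
    (supp _ _ (hA 0) hwz).2
  have e01 := (hw _ m01).2.2 (prodFn (bs 0 1) (As 0 1 (c 1) h))
    (prodFn_contDiff (bs_contDiff _ _) (As_contDiff _ _ _ _)) (supp _ _ hwz (hA 1)).1
    (supp _ _ hwz (hA 1)).2
  have e11 := (hw _ m11).2.2 (prodFn (As 0 1 (c 0) h) (As 0 1 (c 1) h))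
    (prodFn_contDiff (As_contDiff _ _ _ _) (As_contDiff _ _ _ _)) (supp _ _ (hA 0) (hA 1)).1
    (supp _ _ (hA 0) (hA 1)).2
  have d10 : pderiv 0 (prodFn (As 0 1 (c 0) h) (bs 0 1)) =
      prodFn (fun x => bs 0 1 x - bs (c 0) h x) (bs 0 1) := funext fun x =>
    pderiv_prodFn_zero (fun x => As_hasDerivAt _ _ _ _ x) (bs_contDiff _ _) x
  have d01 : pderiv 1 (prodFn (bs 0 1) (As 0 1 (c 1) h)) =
      prodFn (bs 0 1) (fun x => bs 0 1 x - bs (c 1) h x) := funext fun x =>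
    pderiv_prodFn_one (bs_contDiff _ _) (fun x => As_hasDerivAt _ _ _ _ x) x
  have d1 : pderiv 1 (prodFn (As 0 1 (c 0) h) (As 0 1 (c 1) h)) =
      prodFn (As 0 1 (c 0) h) (fun x => bs 0 1 x - bs (c 1) h x) := funext fun x =>
    pderiv_prodFn_one (As_contDiff _ _ _ _) (fun x => As_hasDerivAt _ _ _ _ x) x
  have d11 : pderiv 0 (prodFn (As 0 1 (c 0) h) (fun x => bs 0 1 x - bs (c 1) h x)) =
      prodFn (fun x => bs 0 1 x - bs (c 0) h x) (fun x => bs 0 1 x - bs (c 1) h x) :=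
    funext fun x => pderiv_prodFn_zero (fun x => As_hasDerivAt _ _ _ _ x) (hd 1) x
  rw [mderiv_10, d10] at e10
  rw [mderiv_01, d01] at e01
  rw [mderiv_11, d1, d11] at e11
  have i00 := int _ _ (bs_contDiff 0 1) (bs_contDiff 0 1) hwz hwz
  have i10 := int _ _ (hd 0) (bs_contDiff 0 1) (hbz 0) hwz
  have i01 := int _ _ (bs_contDiff 0 1) (hd 1) hwz (hbz 1)
  have i11 := int _ _ (hd 0) (hd 1) (hbz 0) (hbz 1)
  have e : avg USq f c h = ((∫ x in USq, f x * prodFn (bs 0 1) (bs 0 1) x) -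
      ∫ x in USq, f x * prodFn (fun x => bs 0 1 x - bs (c 0) h x) (bs 0 1) x) -
      ((∫ x in USq, f x * prodFn (bs 0 1) (fun x => bs 0 1 x - bs (c 1) h x) x) -
      ∫ x in USq, f x * prodFn (fun x => bs 0 1 x - bs (c 0) h x)
        (fun x => bs 0 1 x - bs (c 1) h x) x) := by
    unfold avg
    rw [← integral_sub i00 i10, ← integral_sub i01 i11]
    refine Eq.trans ?_ (integral_sub (i00.sub i10) (i01.sub i11))
    congr 1
    funext x
    simp only [wt, prodFn, Pi.sub_apply]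
    ring
  have pb : ∀ (u v : ℝ → ℝ), (∀ x, |u x| ≤ KB) → (∀ x, |v x| ≤ KB) →
      ∀ x, |prodFn u v x| ≤ KB ^ 2 := by
    intro u v hu hv x
    unfold prodFn
    rw [abs_mul, sq]
    exact mul_le_mul (hu _) (hv _) (abs_nonneg _) (by linarith)
  have hAK : ∀ i x, |As 0 1 (c i) h x| ≤ KB := fun i x => (abs_As_le _ _ _ _ _).trans hK
  have n00 := norm_le_one hn m00
  rw [hg0] at n00
  have b00 := l1_bound (by positivity) (pb _ _ hwK hwK) n00
  have b10 := l1_bound (by positivity) (pb _ _ (hAK 0) hwK) (norm_le_one hn m10)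
  have b01 := l1_bound (by positivity) (pb _ _ hwK (hAK 1)) (norm_le_one hn m01)
  have b11 := l1_bound (by positivity) (pb _ _ (hAK 0) (hAK 1)) (norm_le_one hn m11)
  rw [e, e10, e01, e11]
  simp only [Fin.sum_univ_two, Matrix.cons_val_zero, Matrix.cons_val_one]
  rw [abs_le] at b00 b10 b01 b11 ⊢
  norm_num
  constructor <;> linarith [b00.1, b00.2, b10.1, b10.2, b01.1, b01.2, b11.1, b11.2]

lemma val_bound {f : (Fin 2 → ℝ) → ℝ} (hf : f ∈ sobBall USq 2 1) {z : Fin 2 → ℝ} (hz : z ∈ USq) :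
    |f z| ≤ 5 * KB ^ 2 := by
  have hcz : ContinuousWithinAt f USq z := hf.1 z hz
  rw [Metric.continuousWithinAt_iff] at hcz
  obtain ⟨δ, hδ, hδf⟩ := hcz 1 one_pos
  obtain ⟨⟨a0, b0⟩, a1, b1⟩ := hz
  set h : ℝ := min δ (min (1 - z 0) (1 - z 1)) with hh
  have hpos : 0 < h := lt_min hδ (lt_min (by linarith) (by linarith))
  have hδ' : h ≤ δ := min_le_left _ _
  have k0 : h ≤ 1 - z 0 := (min_le_right _ _).trans (min_le_left _ _)
  have k1 : h ≤ 1 - z 1 := (min_le_right _ _).trans (min_le_right _ _)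
  have hBox : Box z h ⊆ USq := by
    intro x hx
    have x0 := hx 0
    have x1 := hx 1
    exact ⟨⟨by linarith [x0.1], by linarith [x0.2]⟩, by linarith [x1.1], by linarith [x1.2]⟩
  have h1 := avg_bound hf (c := z) hpos
    (fun i => by fin_cases i; exacts [a0.le, a1.le])
    (fun i => by
      fin_cases i
      · show z 0 + h ≤ 1
        linarith
      · show z 1 + h ≤ 1
        linarith)
  have h2 := abs_avg_sub_le isOpen_USq hf.1 hpos hBox (a := f z) zero_le_one (fun x hx => by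
    have hdist : dist x z < δ := by
      rw [dist_pi_lt_iff hδ]
      intro i
      have := hx i
      rw [Real.dist_eq, abs_lt]
      constructor <;> linarith [this.1, this.2]
    have := hδf (hBox hx) hdist
    rw [Real.dist_eq] at this
    exact this.le)
  rw [abs_le] at h1 h2 ⊢
  constructor <;> linarith [h1.1, h1.2, h2.1, h2.2]

/-- the method without sample points and with output zero -/
noncomputable def zeroMethod : Method USq 0 ∞ where
  Ω := Unit
  mΩ := ⊤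
  μ := Measure.dirac ()
  prob := inferInstance
  X := fun _ => isEmptyElim
  measX := measurable_const
  law := by
    rw [Measure.pi_of_empty, Measure.map_const]
    simp
  φ := fun _ _ _ => 0
  memLp := fun _ _ => MemLp.zero'

theorem sq2 : S_SQ2 := by
  refine ⟨5 * KB ^ 2, (iInf_le _ zeroMethod).trans ?_⟩
  refine iSup₂_le fun f hf => ?_
  refine iInf_le_of_le (fun _ => ENNReal.ofReal (5 * KB ^ 2)) (iInf_le_of_le measurable_const
    (iInf_le_of_le (fun ω => ?_) ?_))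
  · show eLpNorm _ ∞ _ ≤ ENNReal.ofReal (5 * KB ^ 2)
    rw [eLpNorm_exponent_top]
    refine eLpNormEssSup_le_of_ae_bound ?_
    filter_upwards [ae_restrict_mem isOpen_USq.measurableSet] with x hx
    show ‖f x - 0‖ ≤ _
    rw [sub_zero, Real.norm_eq_abs]
    exact val_bound hf hx
  · have := zeroMethod.prob
    rw [lintegral_const, measure_univ, mul_one]

end Pool.Agent.H673Z.IidSq2
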